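import Mathlib

set_option autoImplicit false

open Set Filter Topology TopologicalSpace

namespace Pool.Agent.Work.MP_f490a9_an

/-- The closed unit ball of the dual, with the weak-star topology. -/
abbrev Bd (Y : Type*) [NormedAddCommGroup Y] [NormedSpace ℝ Y] : Type _ :=
  {f : WeakDual ℝ Y // f ∈ WeakDual.toStrongDual ⁻¹' Metric.closedBall (0 : StrongDual ℝ Y) 1}

section Kernel

variable {Y : Type*} [NormedAddCommGroup Y] [NormedSpace ℝ Y]

/-- An element of the ball as an element of the dual. -/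
noncomputable def toD (f : Bd Y) : StrongDual ℝ Y := WeakDual.toStrongDual f.1

lemma toD_norm (f : Bd Y) : ‖toD f‖ ≤ 1 := by
  have h := f.2
  rw [mem_preimage, mem_closedBall_zero_iff] at h
  exact h

lemma toD_eval_continuous (x : Y) : Continuous (fun f : Bd Y => toD f x) :=
  (WeakDual.eval_continuous x).comp continuous_subtype_val

instance : CompactSpace (Bd Y) :=
  isCompact_iff_compactSpace.mp (WeakDual.isCompact_closedBall (𝕜 := ℝ) (0 : StrongDual ℝ Y) 1)

/-- Lift an element of the norm ball of the dual. -/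
noncomputable def ofD (f : StrongDual ℝ Y) (hf : ‖f‖ ≤ 1) : Bd Y :=
  ⟨StrongDual.toWeakDual f, by simpa using hf⟩

lemma toD_ofD (f : StrongDual ℝ Y) (hf : ‖f‖ ≤ 1) : toD (ofD f hf) = f := rfl

/-- A set of functionals which is covered by countably many norm balls of radius `ε`. -/
def Small (ε : ℝ) (U : Set (Bd Y)) : Prop :=
  ∃ C : Set (StrongDual ℝ Y), C.Countable ∧ ∀ f ∈ U, ∃ c ∈ C, ‖toD f - c‖ < ε

lemma Small.mono {ε : ℝ} {U V : Set (Bd Y)} (h : Small ε V) (hUV : U ⊆ V) : Small ε U := by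
  obtain ⟨C, hC, h⟩ := h
  exact ⟨C, hC, fun f hf => h f (hUV hf)⟩

lemma Small.union {ε : ℝ} {U V : Set (Bd Y)} (hU : Small ε U) (hV : Small ε V) :
    Small ε (U ∪ V) := by
  obtain ⟨C, hC, h⟩ := hU
  obtain ⟨C', hC', h'⟩ := hV
  refine ⟨C ∪ C', hC.union hC', fun f hf => ?_⟩
  rcases hf with hf | hf
  · obtain ⟨c, hc, h2⟩ := h f hf
    exact ⟨c, Or.inl hc, h2⟩
  · obtain ⟨c, hc, h2⟩ := h' f hf
    exact ⟨c, Or.inr hc, h2⟩

lemma Small.sUnion {ε : ℝ} {T : Set (Set (Bd Y))} (hT : T.Countable) (h : ∀ U ∈ T, Small ε U) :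
    Small ε (⋃₀ T) := by
  choose! C hC h' using h
  refine ⟨⋃ U ∈ T, C U, hT.biUnion hC, fun f hf => ?_⟩
  obtain ⟨U, hU, hfU⟩ := hf
  obtain ⟨c, hc, h2⟩ := h' U hU f hfU
  exact ⟨c, mem_biUnion hU hc, h2⟩

lemma exists_eps (h : ¬ SeparableSpace (StrongDual ℝ Y)) :
    ∃ ε : ℝ, 0 < ε ∧ ¬ Small ε (univ : Set (Bd Y)) := by
  by_contra hcon
  push Not at hcon
  apply h
  rw [← isSeparable_univ_iff]
  have hball : IsSeparable (Metric.closedBall (0 : StrongDual ℝ Y) 1) := by
    obtain ⟨t, -, htc, ht⟩ := EMetric.subset_countable_closure_of_almost_dense_set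
      (Metric.closedBall (0 : StrongDual ℝ Y) 1) (fun ε hε => by
        obtain ⟨r, hr0, hr⟩ := ENNReal.lt_iff_exists_real_btwn.mp hε
        obtain ⟨C, hC, hcov⟩ := hcon r (by
          have := hr.1
          simpa using this)
        refine ⟨C, hC, fun f hf => ?_⟩
        obtain ⟨c, hc, h2⟩ := hcov (ofD f (by simpa using hf)) (mem_univ _)
        rw [toD_ofD] at h2
        refine mem_biUnion hc ?_
        rw [Metric.mem_closedEBall, edist_dist, dist_eq_norm]
        exact (ENNReal.ofReal_le_ofReal h2.le).trans hr.2.le)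
    exact ⟨t, htc, ht⟩
  have hcover : (univ : Set (StrongDual ℝ Y)) ⊆
      ⋃ n : ℕ, (fun f : StrongDual ℝ Y => (n : ℝ) • f) '' Metric.closedBall 0 1 := by
    intro f _
    obtain ⟨n, hn⟩ := exists_nat_gt ‖f‖
    have hnpos : (0 : ℝ) < n := lt_of_le_of_lt (norm_nonneg _) hn
    refine mem_iUnion.mpr ⟨n, (n : ℝ)⁻¹ • f, ?_, ?_⟩
    · rw [mem_closedBall_zero_iff, norm_smul, norm_inv, Real.norm_natCast,
        inv_mul_le_iff₀ hnpos]
      linarith
    · simp only [smul_smul]
      rw [mul_inv_cancel₀ hnpos.ne', one_smul]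
  refine IsSeparable.mono ?_ hcover
  exact IsSeparable.iUnion fun n => hball.image (continuous_const_smul (n : ℝ))

/-- The kernel: the points all of whose weak-star neighbourhoods are not small. -/
def Ker (Y : Type*) [NormedAddCommGroup Y] [NormedSpace ℝ Y] (ε : ℝ) : Set (Bd Y) :=
  {f | ∀ U : Set (Bd Y), IsOpen U → f ∈ U → ¬ Small ε U}

lemma small_compl_ker [SeparableSpace Y] (ε : ℝ) : Small ε (Ker Y ε)ᶜ := by
  have : MetrizableSpace (Bd Y) :=
    WeakDual.metrizable_of_isCompact ℝ Y _ (WeakDual.isCompact_closedBall (0 : StrongDual ℝ Y) 1)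
  let _ := metrizableSpaceMetric (Bd Y)
  have : SecondCountableTopology (Bd Y) := inferInstance
  obtain ⟨T, hTc, hTS, hTU⟩ := isOpen_sUnion_countable {U : Set (Bd Y) | IsOpen U ∧ Small ε U}
    (fun s hs => hs.1)
  refine Small.mono (Small.sUnion hTc fun U hU => (hTS hU).2) ?_
  intro f hf
  rw [hTU]
  simp only [Ker, mem_compl_iff, mem_ofPred_eq, not_forall, not_not] at hf
  obtain ⟨U, hU, hfU, hs⟩ := hf
  exact ⟨U, ⟨hU, hs⟩, hfU⟩

lemma not_small_inter_ker [SeparableSpace Y] (ε : ℝ) (U : Set (Bd Y)) (hU : IsOpen U)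
    (hne : (U ∩ Ker Y ε).Nonempty) : ¬ Small ε (U ∩ Ker Y ε) := by
  intro hs
  obtain ⟨f, hfU, hf⟩ := hne
  refine hf U hU hfU ((hs.union (small_compl_ker ε)).mono ?_)
  intro g hg
  by_cases h : g ∈ Ker Y ε
  · exact Or.inl ⟨hg, h⟩
  · exact Or.inr h

lemma ker_nonempty [SeparableSpace Y] (ε : ℝ) (h : ¬ Small ε (univ : Set (Bd Y))) :
    (Ker Y ε).Nonempty := by
  by_contra hne
  rw [not_nonempty_iff_eq_empty] at hne
  apply h
  have := small_compl_ker (Y := Y) ε
  rwa [hne, compl_empty] at this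

/-- Selecting a functional far from a finite-dimensional space. -/
lemma exists_far [SeparableSpace Y] (ε : ℝ) (U : Set (Bd Y)) (hU : IsOpen U)
    (hne : (U ∩ Ker Y ε).Nonempty) (F : Submodule ℝ (StrongDual ℝ Y)) [FiniteDimensional ℝ F] :
    ∃ f ∈ U ∩ Ker Y ε, ∀ g ∈ F, ε ≤ ‖toD f - g‖ := by
  by_contra hcon
  push Not at hcon
  apply not_small_inter_ker ε U hU hne
  have : SeparableSpace F := by
    have : ProperSpace F := FiniteDimensional.proper ℝ F
    infer_instance
  obtain ⟨s, hsc, hsd⟩ := exists_countable_dense F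
  refine ⟨Subtype.val '' s, hsc.image _, fun f hf => ?_⟩
  obtain ⟨g, hg, hfg⟩ := hcon f hf
  obtain ⟨c, hc, hgc⟩ := hsd.exists_dist_lt (⟨g, hg⟩ : F) (sub_pos.mpr hfg)
  refine ⟨c, ⟨c, hc, rfl⟩, ?_⟩
  have h1 : dist g (c : StrongDual ℝ Y) < ε - ‖toD f - g‖ := hgc
  rw [dist_eq_norm] at h1
  have h2 : toD f - (c : StrongDual ℝ Y) = (toD f - g) + (g - c) := by abel
  rw [h2]
  exact lt_of_le_of_lt (norm_add_le _ _) (by linarith)

/-- A functional far from the span of finitely many others can be separated from them by a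
vector of controlled norm. -/
lemma exists_vector {ι : Type*} [Finite ι] (g : ι → StrongDual ℝ Y) (f : StrongDual ℝ Y) (ε : ℝ)
    (hε : 0 < ε) (h : ∀ k ∈ Submodule.span ℝ (range g), ε ≤ ‖f - k‖) :
    ∃ x : Y, ‖x‖ ≤ 2 / ε ∧ f x = 1 ∧ ∀ i, g i x = 0 := by
  set W : Submodule ℝ Y := ⨅ i, LinearMap.ker (g i : Y →ₗ[ℝ] ℝ) with hW
  by_contra hcon
  push Not at hcon
  -- the restriction of `f` to `W` has small norm
  have hsmall : ‖f.comp W.subtypeL‖ ≤ ε / 2 := by
    refine ContinuousLinearMap.opNorm_le_bound _ (by linarith) fun w => ?_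
    show |f (w : Y)| ≤ ε / 2 * ‖(w : Y)‖
    by_contra hlt
    push Not at hlt
    have hfw : f (w : Y) ≠ 0 := by
      intro h0
      rw [h0, abs_zero] at hlt
      have := norm_nonneg (w : Y)
      nlinarith
    have hpos : 0 < |f (w : Y)| := abs_pos.mpr hfw
    obtain ⟨i, hi⟩ := hcon ((f (w : Y))⁻¹ • (w : Y)) (by
      rw [norm_smul, norm_inv, Real.norm_eq_abs, inv_mul_le_iff₀ hpos]
      rw [mul_div_assoc', le_div_iff₀ hε]
      linarith) (by rw [map_smul, smul_eq_mul, inv_mul_cancel₀ hfw])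
    apply hi
    have hw : (w : Y) ∈ ⨅ i, LinearMap.ker (g i : Y →ₗ[ℝ] ℝ) := w.2
    rw [Submodule.mem_iInf] at hw
    have := hw i
    rw [LinearMap.mem_ker] at this
    rw [map_smul]
    have h3 : g i (w : Y) = 0 := this
    rw [h3, smul_zero]
  obtain ⟨k, hk, hkn⟩ := exists_extension_norm_eq W (f.comp W.subtypeL)
  have hmem : ((f - k : StrongDual ℝ Y) : Y →ₗ[ℝ] ℝ) ∈
      Submodule.span ℝ (range fun i => (g i : Y →ₗ[ℝ] ℝ)) := by
    apply mem_span_of_iInf_ker_le_ker
    intro x hx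
    rw [LinearMap.mem_ker]
    have := hk ⟨x, hx⟩
    show f x - k x = 0
    rw [this]
    exact sub_self _
  have hmem' : f - k ∈ Submodule.span ℝ (range g) := by
    have h1 : range (fun i => (g i : Y →ₗ[ℝ] ℝ))
        = (ContinuousLinearMap.coeLM ℝ : (Y →L[ℝ] ℝ) →ₗ[ℝ] (Y →ₗ[ℝ] ℝ)) '' range g := by
      rw [← range_comp]
      rfl
    rw [h1, Submodule.span_image] at hmem
    obtain ⟨z, hz, hz'⟩ := hmem
    have : z = f - k := ContinuousLinearMap.coe_injective hz'
    rwa [← this]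
  have h4 := h _ hmem'
  rw [sub_sub_cancel, hkn] at h4
  linarith

/-- The splitting lemma: inside a finite family of nonempty relatively open pieces of the kernel
one can find smaller pieces separated by vectors of controlled norm. -/
lemma splitting [SeparableSpace Y] (ε : ℝ) (hε : 0 < ε) (η : ℝ) (hη : 0 < η) {ι : Type*}
    [Fintype ι] [DecidableEq ι] (V : ι → Set (Bd Y)) (hV : ∀ i, IsOpen (V i))
    (hne : ∀ i, (V i ∩ Ker Y ε).Nonempty) :
    ∃ (V' : ι → Set (Bd Y)) (x : ι → Y), (∀ i, IsOpen (V' i)) ∧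
      (∀ i, (V' i ∩ Ker Y ε).Nonempty) ∧ (∀ i, V' i ⊆ V i) ∧ (∀ i, ‖x i‖ ≤ 2 / ε) ∧
      ∀ i j, ∀ f ∈ V' i, |toD f (x j) - (if i = j then 1 else 0)| < η := by
  have key : ∀ s : Finset ι, ∃ (V' : ι → Set (Bd Y)) (x : ι → Y), (∀ i, IsOpen (V' i)) ∧
      (∀ i, (V' i ∩ Ker Y ε).Nonempty) ∧ (∀ i, V' i ⊆ V i) ∧ (∀ i, ‖x i‖ ≤ 2 / ε) ∧
      ∀ i, ∀ j ∈ s, ∀ f ∈ V' i, |toD f (x j) - (if i = j then 1 else 0)| < η := by
    intro s
    induction s using Finset.induction_on with
    | empty =>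
      exact ⟨V, fun _ => 0, hV, hne, fun i => le_refl _, fun i => by
        rw [norm_zero]; positivity, fun i j hj => by simp at hj⟩
    | insert j s hj ih =>
      obtain ⟨V', x, hV', hne', hsub, hx, hsep⟩ := ih
      choose p hp using hne'
      set g : {i : ι // i ≠ j} → StrongDual ℝ Y := fun i => toD (p i) with hg
      have : FiniteDimensional ℝ (Submodule.span ℝ (range g)) :=
        FiniteDimensional.span_of_finite ℝ (Set.finite_range g)
      obtain ⟨f, hf, hfar⟩ := exists_far ε (V' j) (hV' j) ⟨p j, hp j⟩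
        (Submodule.span ℝ (range g))
      obtain ⟨v, hv, hfv, hgv⟩ := exists_vector g (toD f) ε hε hfar
      refine ⟨fun i => V' i ∩ {k : Bd Y | |toD k v - (if i = j then 1 else 0)| < η},
        Function.update x j v, fun i => ?_, fun i => ?_, fun i => ?_, fun i => ?_, ?_⟩
      · refine (hV' i).inter (isOpen_lt ?_ continuous_const)
        exact ((toD_eval_continuous v).sub continuous_const).abs
      · by_cases hij : i = j
        · subst hij
          refine ⟨f, ⟨hf.1, ?_⟩, hf.2⟩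
          simp only [mem_ofPred_eq, if_true, hfv, sub_self, abs_zero]
          exact hη
        · refine ⟨p i, ⟨(hp i).1, ?_⟩, (hp i).2⟩
          have : toD (p i) v = 0 := hgv ⟨i, hij⟩
          simp only [mem_ofPred_eq, hij, if_false, this, sub_self, abs_zero]
          exact hη
      · exact inter_subset_left.trans (hsub i)
      · by_cases hij : i = j
        · subst hij
          simpa using hv
        · rw [Function.update_of_ne hij]
          exact hx i
      · intro i k hk f' hf'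
        by_cases hkj : k = j
        · subst hkj
          rw [Function.update_self]
          exact hf'.2
        · rw [Function.update_of_ne hkj]
          exact hsep i k (Finset.mem_of_mem_insert_of_ne hk hkj) f' hf'.1
  obtain ⟨V', x, h1, h2, h3, h4, h5⟩ := key Finset.univ
  exact ⟨V', x, h1, h2, h3, h4, fun i j => h5 i j (Finset.mem_univ j)⟩

end Kernel

end Pool.Agent.Work.MP_f490a9_an
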