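import Mathlib
import Pool.Agent.Work.MP_f490a9_an.Tree

set_option autoImplicit false

open Set Filter Topology TopologicalSpace

namespace Pool.Agent.Work.MP_f490a9_an

/-- The first `n` bits of a point of the Cantor space. -/
def res (b : ℕ → Bool) (n : ℕ) : Fin n → Bool := fun i => b i

lemma continuous_res (n : ℕ) : Continuous (fun b : ℕ → Bool => res b n) := by
  unfold res
  fun_prop

section

variable {Y : Type*} [NormedAddCommGroup Y] [NormedSpace ℝ Y]

lemma tree_exists [SeparableSpace Y] (ε : ℝ) (hε : 0 < ε)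
    (hns : ¬ Small ε (univ : Set (Bd Y))) (η : ℝ) (hη : 0 < η) :
    ∃ x : ∀ n : ℕ, (Fin (n + 1) → Bool) → Y, (∀ n τ, ‖x n τ‖ ≤ 2 / ε) ∧
      ∀ (b : ℕ → Bool) (n : ℕ), ∃ f : Bd Y, ∀ m ≤ n, ∀ τ : Fin (m + 1) → Bool,
        |toD f (x m τ) - (if res b (m + 1) = τ then 1 else 0)| ≤ η := by
  let S : ℕ → Type _ := fun n => {V : (Fin n → Bool) → Set (Bd Y) //
    (∀ σ, IsOpen (V σ)) ∧ ∀ σ, (V σ ∩ Ker Y ε).Nonempty}
  have step : ∀ (n : ℕ) (V : S n), ∃ p : S (n + 1) × ((Fin (n + 1) → Bool) → Y),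
      (∀ σ : Fin (n + 1) → Bool, p.1.1 σ ⊆ V.1 (fun i => σ i.castSucc)) ∧
      (∀ σ, ‖p.2 σ‖ ≤ 2 / ε) ∧
      ∀ σ τ, ∀ f ∈ p.1.1 σ, |toD f (p.2 τ) - (if σ = τ then 1 else 0)| < η := by
    intro n V
    obtain ⟨V', x, h1, h2, h3, h4, h5⟩ := splitting ε hε η hη
      (fun σ : Fin (n + 1) → Bool => V.1 (fun i => σ i.castSucc)) (fun σ => V.2.1 _)
      (fun σ => V.2.2 _)
    exact ⟨(⟨V', h1, h2⟩, x), h3, h4, h5⟩
  choose F hF1 hF2 hF3 using step
  let V0 : S 0 := ⟨fun _ => univ, fun _ => isOpen_univ, fun _ => by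
    rw [univ_inter]
    exact ker_nonempty ε hns⟩
  let seq : ∀ n, S n := fun n => Nat.rec V0 (fun n V => (F n V).1) n
  have hseq : ∀ n, seq (n + 1) = (F n (seq n)).1 := fun n => rfl
  have hmono1 : ∀ (b : ℕ → Bool) (n : ℕ), (seq (n + 1)).1 (res b (n + 1)) ⊆
      (seq n).1 (res b n) := by
    intro b n
    rw [hseq]
    exact hF1 n (seq n) (res b (n + 1))
  have hmono : ∀ (b : ℕ → Bool) (m n : ℕ), m ≤ n → (seq n).1 (res b n) ⊆
      (seq m).1 (res b m) := by
    intro b m n hmn
    induction n, hmn using Nat.le_induction with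
    | base => exact le_refl _
    | succ n _ ih => exact (hmono1 b n).trans ih
  refine ⟨fun n => (F n (seq n)).2, fun n τ => hF2 n (seq n) τ, fun b n => ?_⟩
  obtain ⟨f, hf, -⟩ := (seq (n + 1)).2.2 (res b (n + 1))
  refine ⟨f, fun m hm τ => ?_⟩
  have hfm : f ∈ (seq (m + 1)).1 (res b (m + 1)) := hmono b (m + 1) (n + 1) (by omega) hf
  rw [hseq] at hfm
  exact (hF3 m (seq m) (res b (m + 1)) τ f hfm).le

end

/-- The Cantor system: a compact space of functionals in the unit ball of `X*`, mapped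
irreducibly onto the Cantor space, together with a bounded Haar-like system of vectors. -/
theorem cantor_system (X : Type) [NormedAddCommGroup X] [NormedSpace ℝ X]
    (Y : Submodule ℝ X) (hY : SeparableSpace Y) (hY' : ¬ SeparableSpace (StrongDual ℝ Y))
    (η : ℝ) (hη : 0 < η) :
    ∃ (D : Type) (_ : TopologicalSpace D) (_ : CompactSpace D) (r : D → (ℕ → Bool))
      (e : D → StrongDual ℝ X) (x : ∀ n : ℕ, (Fin (n + 1) → Bool) → X) (C : ℝ),
      0 < C ∧ Continuous r ∧ Function.Surjective r ∧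
      (∀ F : Set D, IsClosed F → F ≠ univ → r '' F ≠ univ) ∧
      (∀ d, ‖e d‖ ≤ 1) ∧ (∀ y : X, Continuous fun d => e d y) ∧
      (∀ n τ, ‖x n τ‖ ≤ C) ∧
      ∀ d n τ, |e d (x n τ) - (if res (r d) (n + 1) = τ then 1 else 0)| ≤ η := by
  obtain ⟨ε, hε, hns⟩ := exists_eps hY'
  obtain ⟨x, hx, htree⟩ := tree_exists ε hε hns η hη
  let P : Set (Bd X × (ℕ → Bool)) := {p | ∀ n (τ : Fin (n + 1) → Bool),
    |toD p.1 ((x n τ : Y) : X) - (if res p.2 (n + 1) = τ then 1 else 0)| ≤ η}
  have hcont : ∀ n (τ : Fin (n + 1) → Bool), Continuous (fun b : ℕ → Bool =>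
      (if res b (n + 1) = τ then (1 : ℝ) else 0)) := by
    intro n τ
    exact (continuous_of_discreteTopology
      (f := fun σ : Fin (n + 1) → Bool => if σ = τ then (1 : ℝ) else 0)).comp (continuous_res _)
  have hPclosed : IsClosed P := by
    have : P = ⋂ n, ⋂ τ : Fin (n + 1) → Bool, {p : Bd X × (ℕ → Bool) |
        |toD p.1 ((x n τ : Y) : X) - (if res p.2 (n + 1) = τ then 1 else 0)| ≤ η} := by
      ext p
      simp [P]
    rw [this]
    refine isClosed_iInter fun n => isClosed_iInter fun τ => isClosed_le ?_ continuous_const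
    exact (((toD_eval_continuous _).comp continuous_fst).sub
      ((hcont n τ).comp continuous_snd)).abs
  have : CompactSpace P := isCompact_iff_compactSpace.mp hPclosed.isCompact
  let π : P → (ℕ → Bool) := fun p => p.1.2
  have hπ : Continuous π := continuous_snd.comp continuous_subtype_val
  have hπs : Function.Surjective π := by
    intro b
    let A : ℕ → Set (Bd X) := fun n => {f | ∀ m ≤ n, ∀ τ : Fin (m + 1) → Bool,
      |toD f ((x m τ : Y) : X) - (if res b (m + 1) = τ then 1 else 0)| ≤ η}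
    have hAcl : ∀ n, IsClosed (A n) := by
      intro n
      have : A n = ⋂ m, ⋂ (_ : m ≤ n), ⋂ τ : Fin (m + 1) → Bool, {f : Bd X |
          |toD f ((x m τ : Y) : X) - (if res b (m + 1) = τ then 1 else 0)| ≤ η} := by
        ext f
        simp [A]
      rw [this]
      refine isClosed_iInter fun m => isClosed_iInter fun _ => isClosed_iInter fun τ =>
        isClosed_le ?_ continuous_const
      exact ((toD_eval_continuous _).sub continuous_const).abs
    obtain ⟨f, hf⟩ := IsCompact.nonempty_iInter_of_sequence_nonempty_isCompact_isClosed A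
      (fun n f hf m hm τ => hf m (by omega) τ) (fun n => by
        obtain ⟨f, hf⟩ := htree b n
        obtain ⟨g, hg, hgn⟩ := exists_extension_norm_eq Y (toD f)
        refine ⟨ofD g (by rw [hgn]; exact toD_norm f), fun m hm τ => ?_⟩
        rw [toD_ofD, hg]
        exact hf m hm τ) (hAcl 0).isCompact hAcl
    exact ⟨⟨(f, b), fun n τ => mem_iInter.mp hf n n le_rfl τ⟩, rfl⟩
  obtain ⟨E, hEc, hEs, hEi⟩ := exists_compact_surjective_zorn_subset hπ hπs
  refine ⟨E, inferInstance, hEc, fun p => π p.1, fun p => toD p.1.1.1, fun n τ => (x n τ : X),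
    2 / ε, by positivity, hπ.comp continuous_subtype_val, ?_, ?_, fun p => toD_norm _,
    fun y => ?_, fun n τ => hx n τ, fun p n τ => p.1.2 n τ⟩
  · intro b
    have : b ∈ π '' E := by rw [hEs]; exact mem_univ _
    obtain ⟨p, hp, hpb⟩ := this
    exact ⟨⟨p, hp⟩, hpb⟩
  · intro F hF hFu
    exact hEi F hFu hF
  · exact (toD_eval_continuous y).comp
      (continuous_fst.comp (continuous_subtype_val.comp continuous_subtype_val))

end Pool.Agent.Work.MP_f490a9_an
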