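import Mathlib
import Pool.Agent.Work.MP_f490a9_an.Cantor

set_option autoImplicit false

open Set Filter Topology TopologicalSpace

namespace Pool.Agent.Work.MP_f490a9_an

/-! ### A nowhere locally constant function on the Cantor space -/

/-- The terms of the binary expansion. -/
noncomputable def bit (b : ℕ → Bool) (i : ℕ) : ℝ := if b i then (1 / 2) ^ (i + 1) else 0

/-- The binary expansion. -/
noncomputable def phi (b : ℕ → Bool) : ℝ := ∑' i, bit b i

lemma bit_nonneg (b : ℕ → Bool) (i : ℕ) : 0 ≤ bit b i := by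
  unfold bit
  split_ifs <;> positivity

lemma bit_le (b : ℕ → Bool) (i : ℕ) : bit b i ≤ (1 / 2) ^ (i + 1) := by
  unfold bit
  split_ifs
  · exact le_refl _
  · positivity

lemma hasSum_half : HasSum (fun i : ℕ => (1 / 2 : ℝ) ^ (i + 1)) 1 := by
  have h := (hasSum_geometric_of_lt_one (r := (1 / 2 : ℝ)) (by norm_num) (by norm_num)).mul_left
    (1 / 2)
  have h2 : (1 / 2 : ℝ) * (1 - 1 / 2)⁻¹ = 1 := by norm_num
  rw [h2] at h
  have h3 : (fun i : ℕ => (1 / 2 : ℝ) ^ (i + 1)) = fun i => 1 / 2 * (1 / 2) ^ i := by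
    funext i
    rw [pow_succ']
  rw [h3]
  exact h

lemma bit_summable (b : ℕ → Bool) : Summable (bit b) :=
  Summable.of_nonneg_of_le (bit_nonneg b) (bit_le b) hasSum_half.summable

lemma phi_nonneg (b : ℕ → Bool) : 0 ≤ phi b := tsum_nonneg (bit_nonneg b)

lemma phi_le_one (b : ℕ → Bool) : phi b ≤ 1 := by
  have h := Summable.tsum_le_tsum (bit_le b) (bit_summable b) hasSum_half.summable
  rw [hasSum_half.tsum_eq] at h
  exact h

lemma phi_continuous : Continuous phi := by
  unfold phi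
  refine continuous_tsum (u := fun i : ℕ => (1 / 2 : ℝ) ^ (i + 1)) (fun i => ?_)
    hasSum_half.summable (fun i b => ?_)
  · unfold bit
    exact (continuous_of_discreteTopology
      (f := fun c : Bool => if c then (1 / 2 : ℝ) ^ (i + 1) else 0)).comp (continuous_apply i)
  · rw [Real.norm_eq_abs, abs_of_nonneg (bit_nonneg b i)]
    exact bit_le b i

lemma phi_update (b : ℕ → Bool) (n : ℕ) :
    phi (Function.update b n true) - phi (Function.update b n false) = (1 / 2) ^ (n + 1) := by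
  unfold phi
  rw [← (bit_summable _).tsum_sub (bit_summable _)]
  rw [tsum_eq_single n]
  · simp [bit]
  · intro m hm
    simp [bit, Function.update_of_ne hm]

lemma le_phi (b : ℕ → Bool) (n : ℕ) (h : b n = true) : (1 / 2) ^ (n + 1) ≤ phi b := by
  have h1 := (bit_summable b).le_tsum n (fun j _ => bit_nonneg b j)
  simp only [bit, h, if_true] at h1
  exact h1

lemma phi_zero : phi (fun _ => false) = 0 := by
  simp [phi, bit]

lemma phi_single (n : ℕ) : phi (fun i => decide (i = n)) = (1 / 2) ^ (n + 1) := by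
  unfold phi
  rw [tsum_eq_single n]
  · simp [bit]
  · intro m hm
    simp [bit, hm]

/-- In every nonempty open set of the Cantor space the function `phi` takes two values. -/
lemma exists_phi_ne (O : Set (ℕ → Bool)) (hO : IsOpen O) (hne : O.Nonempty) :
    ∃ a ∈ O, ∃ a' ∈ O, phi a ≠ phi a' := by
  obtain ⟨b, hb⟩ := hne
  have hlim : ∀ c : Bool, Tendsto (fun n => Function.update b n c) atTop (𝓝 b) := by
    intro c
    rw [tendsto_pi_nhds]
    intro i
    refine tendsto_nhds_of_eventually_eq ?_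
    filter_upwards [eventually_gt_atTop i] with n hn
    exact Function.update_of_ne (by omega) _ _
  have h1 := (hlim true).eventually (hO.mem_nhds hb)
  have h2 := (hlim false).eventually (hO.mem_nhds hb)
  obtain ⟨n, hn1, hn2⟩ := (h1.and h2).exists
  refine ⟨_, hn1, _, hn2, ?_⟩
  have := phi_update b n
  intro h
  rw [h, sub_self] at this
  have h3 : (0 : ℝ) < (1 / 2) ^ (n + 1) := by positivity
  linarith

/-! ### Uniform one-sided differentiability as a Cauchy condition -/

section UC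

variable {X : Type*} [NormedAddCommGroup X] [NormedSpace ℝ X]

/-- The difference quotients are uniformly Cauchy from the right at `x`. -/
def UC (g : X → ℝ) (x : X) : Prop :=
  ∀ ε : ℝ, 0 < ε → ∃ δ : ℝ, 0 < δ ∧ ∀ h : X, ‖h‖ ≤ 1 → ∀ s t : ℝ, 0 < s → s ≤ t → t < δ →
    (g (x + t • h) - g x) / t - (g (x + s • h) - g x) / s < ε

lemma uc_of_ssd (g : X → ℝ) (x : X)
    (h : ∃ D : X → ℝ, ∀ ε : ℝ, 0 < ε → ∃ δ : ℝ, 0 < δ ∧
      ∀ h : X, ‖h‖ ≤ 1 → ∀ t : ℝ, 0 < t → t < δ → |(g (x + t • h) - g x) / t - D h| < ε) :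
    UC g x := by
  obtain ⟨D, hD⟩ := h
  intro ε hε
  obtain ⟨δ, hδ, h⟩ := hD (ε / 2) (half_pos hε)
  refine ⟨δ, hδ, fun v hv s t hs hst ht => ?_⟩
  have h1 := abs_lt.mp (h v hv t (lt_of_lt_of_le hs hst) ht)
  have h2 := abs_lt.mp (h v hv s hs (lt_of_le_of_lt hst ht))
  linarith [h1.2, h2.1]

lemma seminorm_quot_mono (B : Seminorm ℝ X) (x h : X) (s t : ℝ) (hs : 0 < s) (hst : s ≤ t) :
    (B (x + s • h) - B x) / s ≤ (B (x + t • h) - B x) / t := by
  have ht : 0 < t := lt_of_lt_of_le hs hst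
  have h1 : x + s • h = (1 - s / t) • x + (s / t) • (x + t • h) := by
    rw [smul_add, smul_smul, div_mul_cancel₀ _ ht.ne', sub_smul, one_smul]
    abel
  have hle : s / t ≤ 1 := (div_le_one ht).mpr hst
  have hpos : 0 < s / t := by positivity
  have h2 : B (x + s • h) ≤ (1 - s / t) * B x + (s / t) * B (x + t • h) := by
    rw [h1]
    refine (map_add_le_add B _ _).trans ?_
    rw [map_smul_eq_mul, map_smul_eq_mul, Real.norm_of_nonneg (by linarith),
      Real.norm_of_nonneg hpos.le]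
  rw [div_le_div_iff₀ hs ht]
  have h3 : t * B (x + s • h) ≤ t * ((1 - s / t) * B x + (s / t) * B (x + t • h)) :=
    mul_le_mul_of_nonneg_left h2 ht.le
  have h4 : t * ((1 - s / t) * B x + (s / t) * B (x + t • h))
      = (t - s) * B x + s * B (x + t • h) := by
    field_simp
  rw [h4] at h3
  nlinarith

lemma uc_left (A B : Seminorm ℝ X) (x : X) (h : UC (fun y => A y + B y) x) : UC A x := by
  intro ε hε
  obtain ⟨δ, hδ, h1⟩ := h ε hε
  refine ⟨δ, hδ, fun v hv s t hs hst ht => ?_⟩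
  have h2 := h1 v hv s t hs hst ht
  have h3 := seminorm_quot_mono B x v s t hs hst
  have h4 : (A (x + t • v) + B (x + t • v) - (A x + B x)) / t
      = (A (x + t • v) - A x) / t + (B (x + t • v) - B x) / t := by ring
  have h5 : (A (x + s • v) + B (x + s • v) - (A x + B x)) / s
      = (A (x + s • v) - A x) / s + (B (x + s • v) - B x) / s := by ring
  simp only [h4, h5] at h2
  linarith

lemma uc_scale (g : X → ℝ) (x : X) (h : UC g x) (M : ℝ) (hM : 0 < M) (ε : ℝ) (hε : 0 < ε) :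
    ∃ δ : ℝ, 0 < δ ∧ ∀ v : X, ‖v‖ ≤ M → ∀ s t : ℝ, 0 < s → s ≤ t → t < δ →
      (g (x + t • v) - g x) / t - (g (x + s • v) - g x) / s < ε := by
  obtain ⟨δ, hδ, h1⟩ := h (ε / M) (by positivity)
  refine ⟨δ / M, by positivity, fun v hv s t hs hst ht => ?_⟩
  have ht' : 0 < t := lt_of_lt_of_le hs hst
  have h2 := h1 (M⁻¹ • v) (by
    rw [norm_smul, norm_inv, Real.norm_of_nonneg hM.le, inv_mul_le_iff₀ hM]
    linarith) (M * s) (M * t) (by positivity) (by nlinarith) (by
    rw [lt_div_iff₀ hM] at ht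
    linarith)
  have e1 : ∀ u : ℝ, (M * u) • M⁻¹ • v = u • v := by
    intro u
    rw [smul_smul]
    congr 1
    field_simp
  rw [e1, e1] at h2
  rw [lt_div_iff₀ hM] at h2
  have h3 : ((g (x + t • v) - g x) / (M * t) - (g (x + s • v) - g x) / (M * s)) * M
      = (g (x + t • v) - g x) / t - (g (x + s • v) - g x) / s := by
    field_simp
  linarith

end UC

/-! ### Suprema of families of seminorms -/

section Sup

variable {X : Type*} [NormedAddCommGroup X] [NormedSpace ℝ X]

/-- The seminorm `y ↦ |f y| + c |g y|`. -/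
noncomputable def pairSem (f g : StrongDual ℝ X) (c : ℝ) (hc : 0 ≤ c) : Seminorm ℝ X :=
  Seminorm.of (fun y => |f y| + c * |g y|)
    (fun y z => by
      rw [map_add, map_add]
      have h1 := abs_add_le (f y) (f z)
      have h2 := mul_le_mul_of_nonneg_left (abs_add_le (g y) (g z)) hc
      linarith)
    (fun a y => by
      rw [map_smul, map_smul, smul_eq_mul, smul_eq_mul, abs_mul, abs_mul, Real.norm_eq_abs]
      ring)

/-- The seminorm `y ↦ |f y| + c ‖y‖`. -/
noncomputable def normSem (f : StrongDual ℝ X) (c : ℝ) (hc : 0 ≤ c) : Seminorm ℝ X :=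
  Seminorm.of (fun y => |f y| + c * ‖y‖)
    (fun y z => by
      rw [map_add]
      have h1 := abs_add_le (f y) (f z)
      have h2 := mul_le_mul_of_nonneg_left (norm_add_le y z) hc
      linarith)
    (fun a y => by
      rw [map_smul, smul_eq_mul, abs_mul, norm_smul, Real.norm_eq_abs]
      ring)

lemma bdd_of_le {P : Type*} (A : P → Seminorm ℝ X) (M : ℝ) (hM : ∀ p y, A p y ≤ M * ‖y‖) :
    BddAbove (range A) := by
  rw [Seminorm.bddAbove_range_iff]
  intro y
  refine ⟨M * ‖y‖, ?_⟩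
  rintro _ ⟨p, rfl⟩
  exact hM p y

lemma sup_apply {P : Type*} (A : P → Seminorm ℝ X) (M : ℝ) (hM : ∀ p y, A p y ≤ M * ‖y‖)
    (y : X) : (⨆ p, A p) y = ⨆ p, A p y :=
  Seminorm.iSup_apply (bdd_of_le A M hM)

lemma le_sup {P : Type*} (A : P → Seminorm ℝ X) (M : ℝ) (hM : ∀ p y, A p y ≤ M * ‖y‖)
    (y : X) (p : P) : A p y ≤ (⨆ p, A p) y := by
  rw [sup_apply A M hM]
  refine le_ciSup (f := fun p => A p y) ⟨M * ‖y‖, ?_⟩ p
  rintro _ ⟨q, rfl⟩
  exact hM q y

lemma sup_le' {P : Type*} [Nonempty P] (A : P → Seminorm ℝ X) (M : ℝ)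
    (hM : ∀ p y, A p y ≤ M * ‖y‖) (y : X) (c : ℝ) (h : ∀ p, A p y ≤ c) :
    (⨆ p, A p) y ≤ c := by
  rw [sup_apply A M hM]
  exact ciSup_le h

lemma exists_max {P : Type*} [TopologicalSpace P] [CompactSpace P] [Nonempty P]
    (A : P → Seminorm ℝ X) (M : ℝ) (hM : ∀ p y, A p y ≤ M * ‖y‖) (y : X)
    (hc : Continuous fun p => A p y) : ∃ p, A p y = (⨆ p, A p) y := by
  obtain ⟨p, -, hp⟩ := isCompact_univ.exists_isMaxOn (univ_nonempty (α := P)) hc.continuousOn
  refine ⟨p, le_antisymm (le_sup A M hM y p) ?_⟩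
  exact sup_le' A M hM y _ fun q => hp (mem_univ q)

end Sup

end Pool.Agent.Work.MP_f490a9_an
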