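import Mathlib
import Pool.Agent.Work.MP_f490a9_an.Basic

set_option autoImplicit false

open Set Filter Topology TopologicalSpace

namespace Pool.Agent.Work.MP_f490a9_an

/-- A compact space of functionals mapped irreducibly onto the Cantor space, with a bounded
Haar-like system. -/
structure CSystem (X : Type*) [NormedAddCommGroup X] [NormedSpace ℝ X] (D : Type*)
    [TopologicalSpace D] where
  r : D → (ℕ → Bool)
  e : D → StrongDual ℝ X
  v : ∀ n : ℕ, (Fin (n + 1) → Bool) → X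
  C : ℝ
  hC : 0 < C
  hr : Continuous r
  surj : Function.Surjective r
  irr : ∀ F : Set D, IsClosed F → F ≠ univ → r '' F ≠ univ
  he : ∀ d, ‖e d‖ ≤ 1
  hec : ∀ y : X, Continuous fun d => e d y
  hv : ∀ n τ, ‖v n τ‖ ≤ C
  happ : ∀ d n τ, |e d (v n τ) - (if res (r d) (n + 1) = τ then 1 else 0)| ≤ 1 / 100

namespace CSystem

variable {X : Type*} [NormedAddCommGroup X] [NormedSpace ℝ X] {D : Type*}
    [TopologicalSpace D] (S : CSystem X D)

lemma e_le (d : D) (y : X) : |S.e d y| ≤ ‖y‖ := by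
  have h := (S.e d).le_opNorm y
  have h2 := mul_le_mul_of_nonneg_right (S.he d) (norm_nonneg y)
  rw [Real.norm_eq_abs] at h
  linarith

/-- The weight. -/
noncomputable def rho (a b : ℕ → Bool) : ℝ := 1 / 2 + 1 / 4 * (phi a * phi b)

lemma rho_ge (a b : ℕ → Bool) : 1 / 2 ≤ rho a b := by
  unfold rho
  have := mul_nonneg (phi_nonneg a) (phi_nonneg b)
  linarith

lemma rho_le (a b : ℕ → Bool) : rho a b ≤ 1 := by
  unfold rho
  have h1 := phi_nonneg a
  have h2 := phi_le_one a
  have h3 := phi_nonneg b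
  have h4 := phi_le_one b
  nlinarith

/-- The index space of the seminorm. -/
abbrev Pr (β : Bool) : Type _ := {p : D × D // S.r p.1 0 = β ∧ S.r p.2 0 = !β}

lemma closed_bit (c : Bool) : IsClosed {d : D | S.r d 0 = c} :=
  isClosed_eq ((continuous_apply 0).comp S.hr) continuous_const

lemma open_bit (c : Bool) : IsOpen {d : D | S.r d 0 = c} := by
  have h := (continuous_apply (A := fun _ : ℕ => Bool) 0).comp S.hr
  exact (isOpen_discrete ({c} : Set Bool)).preimage h

instance [CompactSpace D] (β : Bool) : CompactSpace (S.Pr β) := by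
  apply isCompact_iff_compactSpace.mp
  apply IsClosed.isCompact
  exact ((S.closed_bit β).preimage continuous_fst).inter
    ((S.closed_bit (!β)).preimage continuous_snd)

instance (β : Bool) : Nonempty (S.Pr β) := by
  obtain ⟨d, hd⟩ := S.surj (fun _ => β)
  obtain ⟨d', hd'⟩ := S.surj (fun _ => !β)
  exact ⟨⟨(d, d'), by rw [hd], by rw [hd']⟩⟩

/-- The family of seminorms. -/
noncomputable def fam (β : Bool) (p : S.Pr β) : Seminorm ℝ X :=
  pairSem (S.e p.1.1) (S.e p.1.2) (rho (S.r p.1.1) (S.r p.1.2))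
    (le_trans (by norm_num) (rho_ge _ _))

lemma fam_apply (β : Bool) (p : S.Pr β) (y : X) :
    S.fam β p y = |S.e p.1.1 y| + rho (S.r p.1.1) (S.r p.1.2) * |S.e p.1.2 y| := rfl

lemma fam_le (β : Bool) (p : S.Pr β) (y : X) : S.fam β p y ≤ 2 * ‖y‖ := by
  rw [fam_apply]
  have h1 := S.e_le p.1.1 y
  have h2 := S.e_le p.1.2 y
  have h3 := rho_le (S.r p.1.1) (S.r p.1.2)
  have h4 := rho_ge (S.r p.1.1) (S.r p.1.2)
  have h5 := abs_nonneg (S.e p.1.2 y)
  nlinarith

lemma rho_continuous : Continuous (fun q : (ℕ → Bool) × (ℕ → Bool) => rho q.1 q.2) := by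
  unfold rho
  exact continuous_const.add (continuous_const.mul
    ((phi_continuous.comp continuous_fst).mul (phi_continuous.comp continuous_snd)))

lemma pairfun_continuous (y : X) : Continuous (fun q : D × D =>
    |S.e q.1 y| + rho (S.r q.1) (S.r q.2) * |S.e q.2 y|) := by
  have h1 : Continuous (fun q : D × D => |S.e q.1 y|) := ((S.hec y).comp continuous_fst).abs
  have h2 : Continuous (fun q : D × D => |S.e q.2 y|) := ((S.hec y).comp continuous_snd).abs
  have h3 : Continuous (fun q : D × D => rho (S.r q.1) (S.r q.2)) :=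
    rho_continuous.comp ((S.hr.comp continuous_fst).prodMk (S.hr.comp continuous_snd))
  exact h1.add (h3.mul h2)

lemma fam_continuous (β : Bool) (y : X) : Continuous fun p : S.Pr β => S.fam β p y :=
  (S.pairfun_continuous y).comp continuous_subtype_val

/-- The seminorm. -/
noncomputable def sem (β : Bool) : Seminorm ℝ X := ⨆ p, S.fam β p

lemma le_sem (β : Bool) (p : S.Pr β) (y : X) : S.fam β p y ≤ S.sem β y :=
  le_sup (S.fam β) 2 (S.fam_le β) y p

lemma sem_le (β : Bool) (y : X) : S.sem β y ≤ 2 * ‖y‖ :=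
  sup_le' (S.fam β) 2 (S.fam_le β) y _ fun p => S.fam_le β p y

/-- Combining the coordinates of two members of the index space. -/
def mix {β : Bool} (p q : S.Pr β) : S.Pr β := ⟨(p.1.1, q.1.2), p.2.1, q.2.2⟩

/-- The set of pairs of branches on which the supremum is attained has empty interior. -/
lemma claim_one [CompactSpace D] (β : Bool) (y : X) (hy : ∃ d, S.r d 0 = (!β) ∧ S.e d y ≠ 0)
    (O₀ O₁ : Set (ℕ → Bool)) (hO₀ : IsOpen O₀) (hO₁ : IsOpen O₁) (hne₀ : O₀.Nonempty)
    (hne₁ : O₁.Nonempty) :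
    ∃ a ∈ O₀, ∃ b ∈ O₁, ∀ p : S.Pr β, S.r p.1.1 = a → S.r p.1.2 = b →
      S.fam β p y < S.sem β y := by
  by_contra hcon
  push Not at hcon
  obtain ⟨a, ha, a', ha', haa⟩ := exists_phi_ne O₀ hO₀ hne₀
  obtain ⟨b, hb, b', hb', hbb⟩ := exists_phi_ne O₁ hO₁ hne₁
  obtain ⟨p, hp1, hp2, hp⟩ := hcon a ha b hb
  obtain ⟨q, hq1, hq2, hq⟩ := hcon a ha b' hb'
  obtain ⟨u, hu1, hu2, hu⟩ := hcon a' ha' b hb
  obtain ⟨w, hw1, hw2, hw⟩ := hcon a' ha' b' hb'
  obtain ⟨d, hd, hdy⟩ := hy
  have m : ∀ i j : S.Pr β, |S.e i.1.1 y| + rho (S.r i.1.1) (S.r j.1.2) * |S.e j.1.2 y|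
      ≤ S.sem β y := fun i j => S.le_sem β (S.mix i j) y
  have md : |S.e p.1.1 y| + rho (S.r p.1.1) (S.r d) * |S.e d y| ≤ S.sem β y :=
    S.le_sem β ⟨(p.1.1, d), p.2.1, hd⟩ y
  have mpu := m p u
  have mup := m u p
  have mpq := m p q
  have mqp := m q p
  have muw := m u w
  have mwu := m w u
  have mqw := m q w
  have mwq := m w q
  rw [fam_apply] at hp hq hu hw
  rw [hp1, hp2] at hp
  rw [hq1, hq2] at hq
  rw [hu1, hu2] at hu
  rw [hw1, hw2] at hw
  rw [hp1, hu2] at mpu
  rw [hu1, hp2] at mup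
  rw [hp1, hq2] at mpq
  rw [hq1, hp2] at mqp
  rw [hu1, hw2] at muw
  rw [hw1, hu2] at mwu
  rw [hq1, hw2] at mqw
  rw [hw1, hq2] at mwq
  have pp := m p p
  have qq := m q q
  have uu := m u u
  have ww := m w w
  rw [hp1, hp2] at pp
  rw [hq1, hq2] at qq
  rw [hu1, hu2] at uu
  rw [hw1, hw2] at ww
  set c := S.sem β y
  set A1 := |S.e p.1.1 y|
  set A2 := |S.e q.1.1 y|
  set A3 := |S.e u.1.1 y|
  set A4 := |S.e w.1.1 y|
  set B1 := |S.e p.1.2 y|
  set B2 := |S.e q.1.2 y|
  set B3 := |S.e u.1.2 y|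
  set B4 := |S.e w.1.2 y|
  have r1 := rho_ge a b
  have r2 := rho_ge a b'
  have r3 := rho_ge a' b
  have r4 := rho_ge a' b'
  -- the first coordinates agree
  have eA1 : A1 = A2 := le_antisymm (by linarith) (by linarith)
  have eA2 : A3 = A4 := le_antisymm (by linarith) (by linarith)
  have eB1 : B1 = B3 := by
    apply le_antisymm
    · have : rho a' b * B1 ≤ rho a' b * B3 := by linarith
      exact le_of_mul_le_mul_left this (by linarith)
    · have : rho a b * B3 ≤ rho a b * B1 := by linarith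
      exact le_of_mul_le_mul_left this (by linarith)
  have eB2 : B2 = B4 := by
    apply le_antisymm
    · have : rho a' b' * B2 ≤ rho a' b' * B4 := by linarith
      exact le_of_mul_le_mul_left this (by linarith)
    · have : rho a b' * B4 ≤ rho a b' * B2 := by linarith
      exact le_of_mul_le_mul_left this (by linarith)
  have E1 : rho a b * B1 = rho a b' * B2 := by
    have h1 : A1 + rho a b * B1 = c := le_antisymm pp hp
    have h2 : A2 + rho a b' * B2 = c := le_antisymm qq hq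
    linarith
  have E2 : rho a' b * B1 = rho a' b' * B2 := by
    have h1 : A3 + rho a' b * B3 = c := le_antisymm uu hu
    have h2 : A4 + rho a' b' * B4 = c := le_antisymm ww hw
    rw [← eB1] at h1
    rw [← eB2] at h2
    linarith
  have hB1 : B1 = 0 := by
    unfold rho at E1 E2
    have h1 : (phi a - phi a') * (phi b * B1 - phi b' * B2) = 0 := by linarith
    have h2 : phi b * B1 = phi b' * B2 := by
      rcases mul_eq_zero.mp h1 with h | h
      · exact absurd (sub_eq_zero.mp h) haa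
      · linarith
    have h3 : B1 = B2 := by
      have : phi a * (phi b * B1) = phi a * (phi b' * B2) := by rw [h2]
      linarith
    have h4 : (phi b - phi b') * B1 = 0 := by
      rw [← h3] at h2
      linarith
    rcases mul_eq_zero.mp h4 with h | h
    · exact absurd (sub_eq_zero.mp h) hbb
    · exact h
  rw [hB1, mul_zero, add_zero] at hp
  have h5 : 0 < |S.e d y| := abs_pos.mpr hdy
  have h6 := rho_ge (S.r p.1.1) (S.r d)
  nlinarith

/-- Using irreducibility. -/
lemma exists_open_image [CompactSpace D] (V : Set D) (hV : IsOpen V) (hne : V.Nonempty) :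
    ∃ O : Set (ℕ → Bool), IsOpen O ∧ O.Nonempty ∧ ∀ d, S.r d ∈ O → d ∈ V := by
  have hcl : IsClosed Vᶜ := hV.isClosed_compl
  have hne' : Vᶜ ≠ univ := by
    intro h
    obtain ⟨d, hd⟩ := hne
    have : d ∈ Vᶜ := by rw [h]; exact mem_univ d
    exact this hd
  have himg := S.irr Vᶜ hcl hne'
  refine ⟨(S.r '' Vᶜ)ᶜ, (hcl.isCompact.image S.hr).isClosed.isOpen_compl, ?_, ?_⟩
  · exact nonempty_compl.mpr himg
  · intro d hd
    by_contra h
    exact hd ⟨d, h, rfl⟩

lemma claim_two [CompactSpace D] (β : Bool) (y : X) (hy : ∃ d, S.r d 0 = (!β) ∧ S.e d y ≠ 0)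
    (δ : ℝ) (hδ : 0 < δ) :
    ∃ a b : ℕ → Bool, (∃ p : S.Pr β, S.r p.1.1 = a ∧ S.r p.1.2 = b) ∧
      (∀ p : S.Pr β, S.r p.1.1 = a → S.r p.1.2 = b → S.fam β p y < S.sem β y) ∧
      (∀ p : S.Pr β, S.r p.1.1 = a → S.r p.1.2 = b → S.sem β y - δ < S.fam β p y) := by
  obtain ⟨p, hp⟩ := exists_max (S.fam β) 2 (S.fam_le β) y (S.fam_continuous β y)
  have hopen : IsOpen {q : D × D | S.sem β y - δ <
      |S.e q.1 y| + rho (S.r q.1) (S.r q.2) * |S.e q.2 y|} :=
    isOpen_lt continuous_const (S.pairfun_continuous y)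
  have hmem : (p.1.1, p.1.2) ∈ {q : D × D | S.sem β y - δ <
      |S.e q.1 y| + rho (S.r q.1) (S.r q.2) * |S.e q.2 y|} := by
    show S.sem β y - δ < S.fam β p y
    rw [hp]
    have : (⨆ p, S.fam β p) y = S.sem β y := rfl
    rw [this]
    linarith
  obtain ⟨V₀, V₁, hV₀, hV₁, hm₀, hm₁, hsub⟩ := isOpen_prod_iff.mp hopen p.1.1 p.1.2 hmem
  obtain ⟨O₀, hO₀, hne₀, hsub₀⟩ := S.exists_open_image (V₀ ∩ {d | S.r d 0 = β})
    (hV₀.inter (S.open_bit β)) ⟨p.1.1, hm₀, p.2.1⟩
  obtain ⟨O₁, hO₁, hne₁, hsub₁⟩ := S.exists_open_image (V₁ ∩ {d | S.r d 0 = !β})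
    (hV₁.inter (S.open_bit (!β))) ⟨p.1.2, hm₁, p.2.2⟩
  obtain ⟨a, ha, b, hb, hab⟩ := S.claim_one β y hy O₀ O₁ hO₀ hO₁ hne₀ hne₁
  refine ⟨a, b, ?_, hab, fun q hq1 hq2 => ?_⟩
  · obtain ⟨d, hd⟩ := S.surj a
    obtain ⟨d', hd'⟩ := S.surj b
    have h1 := hsub₀ d (by rw [hd]; exact ha)
    have h2 := hsub₁ d' (by rw [hd']; exact hb)
    exact ⟨⟨(d, d'), h1.2, h2.2⟩, hd, hd'⟩
  · have h1 := hsub₀ q.1.1 (by rw [hq1]; exact ha)
    have h2 := hsub₁ q.1.2 (by rw [hq2]; exact hb)
    have h3 : (q.1.1, q.1.2) ∈ {q : D × D | S.sem β y - δ <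
      |S.e q.1 y| + rho (S.r q.1) (S.r q.2) * |S.e q.2 y|} := hsub ⟨h1.1, h2.1⟩
    exact h3

lemma res_closed [CompactSpace D] (β : Bool) (a b : ℕ → Bool) (n : ℕ) :
    IsClosed {p : S.Pr β | res (S.r p.1.1) (n + 1) = res a (n + 1) ∧
      res (S.r p.1.2) (n + 1) = res b (n + 1)} := by
  have h1 : Continuous (fun p : S.Pr β => res (S.r p.1.1) (n + 1)) :=
    (continuous_res (n + 1)).comp (S.hr.comp (continuous_fst.comp continuous_subtype_val))
  have h2 : Continuous (fun p : S.Pr β => res (S.r p.1.2) (n + 1)) :=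
    (continuous_res (n + 1)).comp (S.hr.comp (continuous_snd.comp continuous_subtype_val))
  exact (isClosed_eq h1 continuous_const).inter (isClosed_eq h2 continuous_const)

lemma claim_three [CompactSpace D] (β : Bool) (y : X) (a b : ℕ → Bool)
    (h : ∀ p : S.Pr β, S.r p.1.1 = a → S.r p.1.2 = b → S.fam β p y < S.sem β y) :
    ∃ n : ℕ, ∃ c : ℝ, c < S.sem β y ∧ ∀ p : S.Pr β, res (S.r p.1.1) (n + 1) = res a (n + 1) →
      res (S.r p.1.2) (n + 1) = res b (n + 1) → S.fam β p y ≤ c := by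
  by_contra hcon
  push Not at hcon
  let K : ℕ → Set (S.Pr β) := fun n => {p : S.Pr β | res (S.r p.1.1) (n + 1) = res a (n + 1) ∧
      res (S.r p.1.2) (n + 1) = res b (n + 1)} ∩ {p | S.sem β y ≤ S.fam β p y}
  have hKcl : ∀ n, IsClosed (K n) := fun n =>
    (S.res_closed β a b n).inter (isClosed_le continuous_const (S.fam_continuous β y))
  have hKne : ∀ n, (K n).Nonempty := by
    intro n
    obtain ⟨p₀, hp₀, hp₀', -⟩ := hcon n (S.sem β y - 1) (by linarith)
    obtain ⟨p, hp, hmax⟩ := (S.res_closed β a b n).isCompact.exists_isMaxOn ⟨p₀, hp₀, hp₀'⟩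
      (S.fam_continuous β y).continuousOn
    refine ⟨p, hp, ?_⟩
    by_contra hlt
    simp only [mem_ofPred_eq, not_le] at hlt
    obtain ⟨q, hq1, hq2, hq3⟩ := hcon n _ hlt
    have : S.fam β q y ≤ S.fam β p y := hmax ⟨hq1, hq2⟩
    linarith
  have hKmono : ∀ n, K (n + 1) ⊆ K n := by
    intro n p hp
    refine ⟨⟨?_, ?_⟩, hp.2⟩
    · funext i
      exact congrFun hp.1.1 i.castSucc
    · funext i
      exact congrFun hp.1.2 i.castSucc
  obtain ⟨p, hp⟩ := IsCompact.nonempty_iInter_of_sequence_nonempty_isCompact_isClosed K hKmono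
    hKne (hKcl 0).isCompact hKcl
  have hp' := mem_iInter.mp hp
  have h1 : S.r p.1.1 = a := by
    funext i
    exact congrFun (hp' i).1.1 ⟨i, by omega⟩
  have h2 : S.r p.1.2 = b := by
    funext i
    exact congrFun (hp' i).1.2 ⟨i, by omega⟩
  have h3 : S.sem β y ≤ S.fam β p y := (hp' 0).2
  linarith [h p h1 h2]

lemma exists_sign (c : ℝ) : ∃ σ : ℝ, |σ| = 1 ∧ σ * c = |c| ∧ σ * σ = 1 := by
  rcases le_or_gt 0 c with h | h
  · exact ⟨1, by simp, by rw [one_mul, abs_of_nonneg h], by norm_num⟩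
  · exact ⟨-1, by simp, by rw [abs_of_neg h]; ring, by norm_num⟩

theorem not_uc_sem [CompactSpace D] (β : Bool) (y : X)
    (hy : ∃ d, S.r d 0 = (!β) ∧ S.e d y ≠ 0) : ¬ UC (S.sem β) y := by
  intro huc
  have hC := S.hC
  obtain ⟨δ, hδ, hUC⟩ := uc_scale _ y huc (2 * S.C) (by linarith) (2 / 5) (by norm_num)
  set t : ℝ := δ / 2 with ht
  have htpos : 0 < t := by positivity
  obtain ⟨a, b, ⟨p, hpa, hpb⟩, hlt, hgt⟩ := S.claim_two β y hy (t / 100) (by positivity)
  obtain ⟨n, c', hc', hcyl⟩ := S.claim_three β y a b hlt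
  obtain ⟨σ, hσ1, hσ2, hσ3⟩ := exists_sign (S.e p.1.1 y)
  obtain ⟨τ, hτ1, hτ2, hτ3⟩ := exists_sign (S.e p.1.2 y)
  set xa : X := S.v n (res a (n + 1)) with hxa
  set xb : X := S.v n (res b (n + 1)) with hxb
  set h : X := σ • xa + τ • xb with hh
  have hhn : ‖h‖ ≤ 2 * S.C := by
    refine (norm_add_le _ _).trans ?_
    rw [norm_smul, norm_smul, Real.norm_eq_abs, Real.norm_eq_abs, hσ1, hτ1, one_mul, one_mul]
    have h1 := S.hv n (res a (n + 1))
    have h2 := S.hv n (res b (n + 1))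
    linarith
  -- the first bits of the branches
  have ha0 : a 0 = β := by rw [← hpa]; exact p.2.1
  have hb0 : b 0 = !β := by rw [← hpb]; exact p.2.2
  -- evaluation of the functionals of the pairs at the vectors
  have ev1 : ∀ q : S.Pr β, |S.e q.1.1 xb| ≤ 1 / 100 := by
    intro q
    have h1 := S.happ q.1.1 n (res b (n + 1))
    have h2 : res (S.r q.1.1) (n + 1) ≠ res b (n + 1) := by
      intro h
      have h3 := congrFun h 0
      have h4 : S.r q.1.1 0 = b 0 := h3
      rw [q.2.1, hb0] at h4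
      cases β <;> simp at h4
    rw [if_neg h2, sub_zero] at h1
    exact h1
  have ev2 : ∀ q : S.Pr β, |S.e q.1.2 xa| ≤ 1 / 100 := by
    intro q
    have h1 := S.happ q.1.2 n (res a (n + 1))
    have h2 : res (S.r q.1.2) (n + 1) ≠ res a (n + 1) := by
      intro h
      have h3 := congrFun h 0
      have h4 : S.r q.1.2 0 = a 0 := h3
      rw [q.2.2, ha0] at h4
      cases β <;> simp at h4
    rw [if_neg h2, sub_zero] at h1
    exact h1
  have eh : ∀ f : StrongDual ℝ X, f h = σ * f xa + τ * f xb := by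
    intro f
    rw [hh, map_add, map_smul, map_smul, smul_eq_mul, smul_eq_mul]
  -- lower bound
  have hlow : S.sem β y - t / 100 + t * (3 / 2) * (98 / 100) ≤ S.sem β (y + t • h) := by
    refine le_trans ?_ (S.le_sem β p (y + t • h))
    have hval := hgt p hpa hpb
    rw [fam_apply] at hval ⊢
    have hρ := rho_ge (S.r p.1.1) (S.r p.1.2)
    have k1 : |S.e p.1.1 y| + t * (98 / 100) ≤ |S.e p.1.1 (y + t • h)| := by
      have h1 : σ * S.e p.1.1 (y + t • h) ≤ |S.e p.1.1 (y + t • h)| := by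
        have := le_abs_self (σ * S.e p.1.1 (y + t • h))
        rwa [abs_mul, hσ1, one_mul] at this
      refine le_trans ?_ h1
      rw [map_add, map_smul, smul_eq_mul, eh]
      have h2 := S.happ p.1.1 n (res a (n + 1))
      rw [hpa, if_pos rfl] at h2
      have h3 := abs_le.mp h2
      have h4 : |σ * (τ * S.e p.1.1 xb)| ≤ 1 / 100 := by
        rw [abs_mul, abs_mul, hσ1, hτ1, one_mul, one_mul]
        exact ev1 p
      have h5 := (abs_le.mp h4).1
      have h6 : σ * (S.e p.1.1 y + t * (σ * S.e p.1.1 xa + τ * S.e p.1.1 xb))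
          = σ * S.e p.1.1 y + t * ((σ * σ) * S.e p.1.1 xa + σ * (τ * S.e p.1.1 xb)) := by ring
      rw [h6, hσ2, hσ3, one_mul]
      have h7 : (98 / 100 : ℝ) ≤ S.e p.1.1 xa + σ * (τ * S.e p.1.1 xb) := by linarith [h3.1]
      nlinarith
    have k2 : |S.e p.1.2 y| + t * (98 / 100) ≤ |S.e p.1.2 (y + t • h)| := by
      have h1 : τ * S.e p.1.2 (y + t • h) ≤ |S.e p.1.2 (y + t • h)| := by
        have := le_abs_self (τ * S.e p.1.2 (y + t • h))
        rwa [abs_mul, hτ1, one_mul] at this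
      refine le_trans ?_ h1
      rw [map_add, map_smul, smul_eq_mul, eh]
      have h2 := S.happ p.1.2 n (res b (n + 1))
      rw [hpb, if_pos rfl] at h2
      have h3 := abs_le.mp h2
      have h4 : |τ * (σ * S.e p.1.2 xa)| ≤ 1 / 100 := by
        rw [abs_mul, abs_mul, hσ1, hτ1, one_mul, one_mul]
        exact ev2 p
      have h5 := (abs_le.mp h4).1
      have h6 : τ * (S.e p.1.2 y + t * (σ * S.e p.1.2 xa + τ * S.e p.1.2 xb))
          = τ * S.e p.1.2 y + t * ((τ * τ) * S.e p.1.2 xb + τ * (σ * S.e p.1.2 xa)) := by ring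
      rw [h6, hτ2, hτ3, one_mul]
      have h7 : (98 / 100 : ℝ) ≤ S.e p.1.2 xb + τ * (σ * S.e p.1.2 xa) := by linarith [h3.1]
      nlinarith
    have k3 : rho (S.r p.1.1) (S.r p.1.2) * (|S.e p.1.2 y| + t * (98 / 100))
        ≤ rho (S.r p.1.1) (S.r p.1.2) * |S.e p.1.2 (y + t • h)| :=
      mul_le_mul_of_nonneg_left k2 (by linarith)
    have k4 : t * (98 / 100) * (1 / 2) ≤ rho (S.r p.1.1) (S.r p.1.2) * (t * (98 / 100)) := by
      have : 0 ≤ t * (98 / 100) := by positivity
      nlinarith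
    linarith
  -- the small parameter
  obtain ⟨s, hs0, hst, hs⟩ : ∃ s : ℝ, 0 < s ∧ s ≤ t ∧ s * (4 * S.C) ≤ S.sem β y - c' := by
    refine ⟨min t ((S.sem β y - c') / (4 * S.C)), lt_min htpos (div_pos (by linarith)
      (by linarith)), min_le_left _ _, ?_⟩
    have h1 := min_le_right t ((S.sem β y - c') / (4 * S.C))
    rw [le_div_iff₀ (by linarith)] at h1
    exact h1
  -- upper bound
  have hup : S.sem β (y + s • h) ≤ S.sem β y + s * (104 / 100) := by
    refine sup_le' (S.fam β) 2 (S.fam_le β) _ _ fun q => ?_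
    have hadd : S.fam β q (y + s • h) ≤ S.fam β q y + s * S.fam β q h := by
      refine (map_add_le_add _ _ _).trans ?_
      rw [map_smul_eq_mul, Real.norm_of_nonneg hs0.le]
    refine hadd.trans ?_
    by_cases hq : res (S.r q.1.1) (n + 1) = res a (n + 1) ∧
        res (S.r q.1.2) (n + 1) = res b (n + 1)
    · have h1 := hcyl q hq.1 hq.2
      have h2 := S.fam_le β q h
      have h3 : S.fam β q h ≤ 4 * S.C := by linarith
      have h4 : s * S.fam β q h ≤ s * (4 * S.C) := mul_le_mul_of_nonneg_left h3 hs0.le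
      linarith
    · have h1 := S.le_sem β q y
      have h2 : S.fam β q h ≤ 104 / 100 := by
        rw [fam_apply, eh, eh]
        have hρ := rho_ge (S.r q.1.1) (S.r q.1.2)
        have hρ' := rho_le (S.r q.1.1) (S.r q.1.2)
        have m1 : |σ * S.e q.1.1 xa + τ * S.e q.1.1 xb| ≤ |S.e q.1.1 xa| + 1 / 100 := by
          refine (abs_add_le _ _).trans ?_
          rw [abs_mul, abs_mul, hσ1, hτ1, one_mul, one_mul]
          linarith [ev1 q]
        have m2 : |σ * S.e q.1.2 xa + τ * S.e q.1.2 xb| ≤ 1 / 100 + |S.e q.1.2 xb| := by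
          refine (abs_add_le _ _).trans ?_
          rw [abs_mul, abs_mul, hσ1, hτ1, one_mul, one_mul]
          linarith [ev2 q]
        have n1 := S.happ q.1.1 n (res a (n + 1))
        have n2 := S.happ q.1.2 n (res b (n + 1))
        have g1 : |S.e q.1.1 xa| ≤ 101 / 100 := by
          split_ifs at n1
          · rw [abs_le] at n1 ⊢
            constructor <;> linarith
          · rw [sub_zero] at n1
            linarith
        have g2 : |S.e q.1.2 xb| ≤ 101 / 100 := by
          split_ifs at n2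
          · rw [abs_le] at n2 ⊢
            constructor <;> linarith
          · rw [sub_zero] at n2
            linarith
        have p0 := abs_nonneg (σ * S.e q.1.2 xa + τ * S.e q.1.2 xb)
        rw [not_and_or] at hq
        rcases hq with hq | hq
        · rw [if_neg hq, sub_zero] at n1
          nlinarith
        · rw [if_neg hq, sub_zero] at n2
          nlinarith
      have h3 : s * S.fam β q h ≤ s * (104 / 100) := mul_le_mul_of_nonneg_left h2 hs0.le
      linarith
  have hfin := hUC h hhn s t hs0 hst (by rw [ht]; linarith)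
  have q1 : (3 / 2) * (98 / 100) - 1 / 100 ≤ (S.sem β (y + t • h) - S.sem β y) / t := by
    rw [le_div_iff₀ htpos]
    linarith
  have q2 : (S.sem β (y + s • h) - S.sem β y) / s ≤ 104 / 100 := by
    rw [div_le_iff₀ hs0]
    linarith
  linarith

end CSystem

end Pool.Agent.Work.MP_f490a9_an
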