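import Mathlib
import Pool.Agent.Work.MP_f490a9_an.Main

set_option autoImplicit false

open Set Filter Topology TopologicalSpace

namespace Pool.Agent.Work.MP_f490a9_an

namespace CSystem

variable {X : Type*} [NormedAddCommGroup X] [NormedSpace ℝ X] {D : Type*}
    [TopologicalSpace D] (S : CSystem X D)

/-- The weight of the third seminorm. -/
noncomputable def wt (a : ℕ → Bool) : ℝ := 1 - phi a / 2

lemma wt_nonneg (a : ℕ → Bool) : 0 ≤ wt a := by
  unfold wt
  linarith [phi_le_one a]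

lemma wt_le (a : ℕ → Bool) : wt a ≤ 1 := by
  unfold wt
  linarith [phi_nonneg a]

/-- The third family. -/
noncomputable def fam3 (d : D) : Seminorm ℝ X := normSem (S.e d) (wt (S.r d)) (wt_nonneg _)

lemma fam3_apply (d : D) (y : X) : S.fam3 d y = |S.e d y| + wt (S.r d) * ‖y‖ := rfl

lemma fam3_le (d : D) (y : X) : S.fam3 d y ≤ 2 * ‖y‖ := by
  rw [fam3_apply]
  have h1 := S.e_le d y
  have h2 := mul_le_mul_of_nonneg_right (wt_le (S.r d)) (norm_nonneg y)
  linarith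

/-- The third seminorm. -/
noncomputable def sem3 : Seminorm ℝ X := ⨆ d, S.fam3 d

lemma le_sem3 (d : D) (y : X) : S.fam3 d y ≤ S.sem3 y := le_sup S.fam3 2 S.fam3_le y d

include S in
lemma nonemptyD : Nonempty D := by
  obtain ⟨d, -⟩ := S.surj (fun _ => false)
  exact ⟨d⟩

lemma sem3_le (y : X) : S.sem3 y ≤ 2 * ‖y‖ := by
  have := S.nonemptyD
  exact sup_le' S.fam3 2 S.fam3_le y _ fun p => S.fam3_le p y

lemma norm_le_sem3 (y : X) : ‖y‖ ≤ S.sem3 y := by
  obtain ⟨d, hd⟩ := S.surj (fun _ => false)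
  refine le_trans ?_ (S.le_sem3 d y)
  rw [fam3_apply, hd, wt, phi_zero]
  have := abs_nonneg (S.e d y)
  linarith

theorem not_uc_sem3 (y : X) (hy0 : y ≠ 0) (hy : ∀ d, S.e d y = 0) : ¬ UC S.sem3 y := by
  intro huc
  have hC := S.hC
  have hD := S.nonemptyD
  have hyn : 0 < ‖y‖ := norm_pos_iff.mpr hy0
  obtain ⟨δ, hδ, hUC⟩ := uc_scale _ y huc S.C hC (2 / 5) (by norm_num)
  -- choose a small power of two
  obtain ⟨n, hn1, hn2⟩ : ∃ n : ℕ, 4 * ((1 / 2 : ℝ) ^ (n + 2)) * ‖y‖ < δ ∧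
      4 * ((1 / 2 : ℝ) ^ (n + 2)) * S.C ≤ 1 := by
    have hlim : Tendsto (fun n : ℕ => 4 * ((1 / 2 : ℝ) ^ (n + 2))) atTop (𝓝 (4 * 0)) :=
      ((tendsto_pow_atTop_nhds_zero_of_lt_one (by norm_num) (by norm_num)).comp
        (tendsto_add_atTop_nat 2)).const_mul 4
    rw [mul_zero] at hlim
    have h1 : ∀ᶠ n : ℕ in atTop, 4 * ((1 / 2 : ℝ) ^ (n + 2)) * ‖y‖ < δ := by
      have := hlim.mul_const ‖y‖
      rw [zero_mul] at this
      exact this.eventually (gt_mem_nhds hδ)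
    have h2 : ∀ᶠ n : ℕ in atTop, 4 * ((1 / 2 : ℝ) ^ (n + 2)) * S.C < 1 := by
      have := hlim.mul_const S.C
      rw [zero_mul] at this
      exact this.eventually (gt_mem_nhds one_pos)
    obtain ⟨n, h3, h4⟩ := (h1.and h2).exists
    exact ⟨n, h3, h4.le⟩
  set κ : ℝ := (1 / 2 : ℝ) ^ (n + 2) with hκ
  have hκpos : 0 < κ := by positivity
  have hκ2 : (1 / 2 : ℝ) ^ (n + 1) = 2 * κ := by
    rw [hκ, pow_succ (1 / 2 : ℝ) (n + 1)]
    ring
  set t : ℝ := 4 * κ * ‖y‖ with ht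
  have htpos : 0 < t := by positivity
  -- the branch and the vector
  set a : ℕ → Bool := fun i => decide (i = n) with ha
  obtain ⟨d, hd⟩ := S.surj a
  set h : X := S.v n (res a (n + 1)) with hh
  have hhn : ‖h‖ ≤ S.C := S.hv n _
  have hwa : wt a = 1 - κ := by
    rw [wt, ha, phi_single, hκ2]
    ring
  -- lower bound
  have hlow : t * (99 / 100) + (1 - κ) * ‖y + t • h‖ ≤ S.sem3 (y + t • h) := by
    refine le_trans ?_ (S.le_sem3 d _)
    rw [fam3_apply, hd, hwa, map_add, map_smul, hy d, zero_add, smul_eq_mul, abs_mul,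
      abs_of_pos htpos]
    have h1 := S.happ d n (res a (n + 1))
    rw [hd, if_pos rfl] at h1
    have h2 := (abs_le.mp h1).1
    have h3 : 99 / 100 ≤ |S.e d h| := le_trans (by linarith) (le_abs_self _)
    have h4 := mul_le_mul_of_nonneg_left h3 htpos.le
    linarith
  -- the small parameter
  obtain ⟨s, hs0, hst, hs1, hs2⟩ : ∃ s : ℝ, 0 < s ∧ s ≤ t ∧ s * S.C ≤ ‖y‖ / 2 ∧
      s ≤ κ * ‖y‖ / 4 := by
    refine ⟨min t (min (‖y‖ / 2 / S.C) (κ * ‖y‖ / 4)), lt_min htpos (lt_min (by positivity)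
      (by positivity)), min_le_left _ _, ?_, ?_⟩
    · have h1 := (min_le_right t (min (‖y‖ / 2 / S.C) (κ * ‖y‖ / 4))).trans (min_le_left _ _)
      rwa [le_div_iff₀ hC] at h1
    · exact (min_le_right t (min (‖y‖ / 2 / S.C) (κ * ‖y‖ / 4))).trans (min_le_right _ _)
  have hsh : ‖s • h‖ ≤ ‖y‖ / 2 := by
    rw [norm_smul, Real.norm_of_nonneg hs0.le]
    exact (mul_le_mul_of_nonneg_left hhn hs0.le).trans hs1
  have hge : ‖y‖ / 2 ≤ ‖y + s • h‖ := by
    have h1 : ‖y‖ ≤ ‖y + s • h‖ + ‖s • h‖ := by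
      have h2 := norm_sub_le (y + s • h) (s • h)
      rwa [add_sub_cancel_right] at h2
    linarith
  have hup : S.sem3 (y + s • h) ≤ s * (1 / 100) + ‖y + s • h‖ := by
    refine sup_le' S.fam3 2 S.fam3_le _ _ fun q => ?_
    rw [fam3_apply, map_add, map_smul, hy q, zero_add, smul_eq_mul, abs_mul, abs_of_pos hs0]
    have h1 := S.happ q n (res a (n + 1))
    by_cases hq : res (S.r q) (n + 1) = res a (n + 1)
    · rw [if_pos hq] at h1
      have h2 := (abs_le.mp h1)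
      have h3 : |S.e q h| ≤ 101 / 100 := by
        rw [abs_le]
        constructor <;> linarith [h2.1, h2.2]
      have h4 : S.r q n = true := by
        have h5 : S.r q n = a n := congrFun hq ⟨n, by omega⟩
        rw [h5, ha]
        simp
      have h6 : wt (S.r q) ≤ 1 - κ := by
        have := le_phi (S.r q) n h4
        rw [hκ2] at this
        unfold wt
        linarith
      have h7 : s * |S.e q h| ≤ s * (101 / 100) := mul_le_mul_of_nonneg_left h3 hs0.le
      have h8 : wt (S.r q) * ‖y + s • h‖ ≤ (1 - κ) * ‖y + s • h‖ :=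
        mul_le_mul_of_nonneg_right h6 (norm_nonneg _)
      have h9 : κ * (‖y‖ / 2) ≤ κ * ‖y + s • h‖ := mul_le_mul_of_nonneg_left hge hκpos.le
      nlinarith
    · rw [if_neg hq, sub_zero] at h1
      have h7 : s * |S.e q h| ≤ s * (1 / 100) := mul_le_mul_of_nonneg_left h1 hs0.le
      have h8 : wt (S.r q) * ‖y + s • h‖ ≤ 1 * ‖y + s • h‖ :=
        mul_le_mul_of_nonneg_right (wt_le _) (norm_nonneg _)
      linarith
  have hval : S.sem3 y = ‖y‖ := by
    apply le_antisymm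
    · refine sup_le' S.fam3 2 S.fam3_le _ _ fun q => ?_
      rw [fam3_apply, hy q, abs_zero, zero_add]
      have h8 : wt (S.r q) * ‖y‖ ≤ 1 * ‖y‖ :=
        mul_le_mul_of_nonneg_right (wt_le _) (norm_nonneg _)
      linarith
    · exact S.norm_le_sem3 y
  have hfin := hUC h hhn s t hs0 hst hn1
  have hmono := seminorm_quot_mono (normSeminorm ℝ X) y h s t hs0 hst
  simp only [coe_normSeminorm] at hmono
  rw [hval] at hfin
  -- compare
  have htn : ‖y + t • h‖ ≤ 2 * ‖y‖ := by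
    refine (norm_add_le _ _).trans ?_
    rw [norm_smul, Real.norm_of_nonneg htpos.le]
    have h1 : t * ‖h‖ ≤ t * S.C := mul_le_mul_of_nonneg_left hhn htpos.le
    have h2 : t * S.C ≤ 1 * ‖y‖ := by
      rw [ht]
      calc 4 * κ * ‖y‖ * S.C = (4 * κ * S.C) * ‖y‖ := by ring
        _ ≤ 1 * ‖y‖ := mul_le_mul_of_nonneg_right hn2 hyn.le
    linarith
  have q1 : (‖y + t • h‖ - ‖y‖) / t + 49 / 100 ≤ (S.sem3 (y + t • h) - ‖y‖) / t := by
    rw [← sub_nonneg, ← sub_sub, ← sub_div]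
    have h1 : (49 / 100 : ℝ) = (49 / 100 * t) / t := by field_simp
    rw [h1, ← sub_div]
    apply div_nonneg _ htpos.le
    have h2 : κ * ‖y + t • h‖ ≤ κ * (2 * ‖y‖) := mul_le_mul_of_nonneg_left htn hκpos.le
    have h3 : κ * (2 * ‖y‖) = t / 2 := by rw [ht]; ring
    linarith
  have q2 : (S.sem3 (y + s • h) - ‖y‖) / s ≤ (‖y + s • h‖ - ‖y‖) / s + 1 / 100 := by
    rw [← sub_nonneg, ← sub_add_eq_add_sub, ← sub_div]
    have h1 : (1 / 100 : ℝ) = (1 / 100 * s) / s := by field_simp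
    rw [h1, ← add_div]
    apply div_nonneg _ hs0.le
    linarith
  linarith

end CSystem

end Pool.Agent.Work.MP_f490a9_an
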