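import Mathlib
import Pool.Agent.Work.MP_f490a9_an.Third

/-!
The Cantor system of `Cantor.lean` for normed spaces in an arbitrary universe.
-/

set_option autoImplicit false

open Set Filter Topology TopologicalSpace

universe u

namespace Pool.Agent.Work.MP_f490a9_an

/-- The Cantor system (`cantor_system`), for normed spaces in an arbitrary universe: a compact space of functionals in the unit ball of `X*`, mapped
irreducibly onto the Cantor space, together with a bounded Haar-like system of vectors. -/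
theorem cantor_system_univ (X : Type u) [NormedAddCommGroup X] [NormedSpace ℝ X]
    (Y : Submodule ℝ X) (hY : SeparableSpace Y) (hY' : ¬ SeparableSpace (StrongDual ℝ Y))
    (η : ℝ) (hη : 0 < η) :
    ∃ (D : Type u) (_ : TopologicalSpace D) (_ : CompactSpace D) (r : D → (ℕ → Bool))
      (e : D → StrongDual ℝ X) (x : ∀ n : ℕ, (Fin (n + 1) → Bool) → X) (C : ℝ),
      0 < C ∧ Continuous r ∧ Function.Surjective r ∧
      (∀ F : Set D, IsClosed F → F ≠ univ → r '' F ≠ univ) ∧
      (∀ d, ‖e d‖ ≤ 1) ∧ (∀ y : X, Continuous fun d => e d y) ∧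
      (∀ n τ, ‖x n τ‖ ≤ C) ∧
      ∀ d n τ, |e d (x n τ) - (if res (r d) (n + 1) = τ then 1 else 0)| ≤ η := by
  obtain ⟨ε, hε, hns⟩ := exists_eps hY'
  obtain ⟨x, hx, htree⟩ := tree_exists ε hε hns η hη
  let P : Set (Bd X × (ℕ → Bool)) := {p | ∀ n (τ : Fin (n + 1) → Bool),
    |toD p.1 ((x n τ : Y) : X) - (if res p.2 (n + 1) = τ then 1 else 0)| ≤ η}
  have hcont : ∀ n (τ : Fin (n + 1) → Bool), Continuous (fun b : ℕ → Bool =>
      (if res b (n + 1) = τ then (1 : ℝ) else 0)) := by
    intro n τ
    exact (continuous_of_discreteTopology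
      (f := fun σ : Fin (n + 1) → Bool => if σ = τ then (1 : ℝ) else 0)).comp (continuous_res _)
  have hPclosed : IsClosed P := by
    have : P = ⋂ n, ⋂ τ : Fin (n + 1) → Bool, {p : Bd X × (ℕ → Bool) |
        |toD p.1 ((x n τ : Y) : X) - (if res p.2 (n + 1) = τ then 1 else 0)| ≤ η} := by
      ext p
      simp [P]
    rw [this]
    refine isClosed_iInter fun n => isClosed_iInter fun τ => isClosed_le ?_ continuous_const
    exact (((toD_eval_continuous _).comp continuous_fst).sub
      ((hcont n τ).comp continuous_snd)).abs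
  have : CompactSpace P := isCompact_iff_compactSpace.mp hPclosed.isCompact
  let π : P → (ℕ → Bool) := fun p => p.1.2
  have hπ : Continuous π := continuous_snd.comp continuous_subtype_val
  have hπs : Function.Surjective π := by
    intro b
    let A : ℕ → Set (Bd X) := fun n => {f | ∀ m ≤ n, ∀ τ : Fin (m + 1) → Bool,
      |toD f ((x m τ : Y) : X) - (if res b (m + 1) = τ then 1 else 0)| ≤ η}
    have hAcl : ∀ n, IsClosed (A n) := by
      intro n
      have : A n = ⋂ m, ⋂ (_ : m ≤ n), ⋂ τ : Fin (m + 1) → Bool, {f : Bd X |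
          |toD f ((x m τ : Y) : X) - (if res b (m + 1) = τ then 1 else 0)| ≤ η} := by
        ext f
        simp [A]
      rw [this]
      refine isClosed_iInter fun m => isClosed_iInter fun _ => isClosed_iInter fun τ =>
        isClosed_le ?_ continuous_const
      exact ((toD_eval_continuous _).sub continuous_const).abs
    obtain ⟨f, hf⟩ := IsCompact.nonempty_iInter_of_sequence_nonempty_isCompact_isClosed A
      (fun n f hf m hm τ => hf m (by omega) τ) (fun n => by
        obtain ⟨f, hf⟩ := htree b n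
        obtain ⟨g, hg, hgn⟩ := exists_extension_norm_eq Y (toD f)
        refine ⟨ofD g (by rw [hgn]; exact toD_norm f), fun m hm τ => ?_⟩
        rw [toD_ofD, hg]
        exact hf m hm τ) (hAcl 0).isCompact hAcl
    exact ⟨⟨(f, b), fun n τ => mem_iInter.mp hf n n le_rfl τ⟩, rfl⟩
  let π' : P → ULift.{u} (ℕ → Bool) := fun p => ULift.up (π p)
  have hπ' : Continuous π' := continuous_uliftUp.comp hπ
  have hπs' : Function.Surjective π' := by
    rintro ⟨b⟩
    obtain ⟨p, hp⟩ := hπs b
    exact ⟨p, by show ULift.up (π p) = ULift.up b; rw [hp]⟩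
  obtain ⟨E, hEc, hEs', hEi'⟩ := exists_compact_surjective_zorn_subset hπ' hπs'
  have hEs : π '' E = univ := by
    rw [eq_univ_iff_forall] at hEs' ⊢
    intro b
    obtain ⟨p, hp, hpb⟩ := hEs' (ULift.up b)
    exact ⟨p, hp, congrArg ULift.down hpb⟩
  have hEi : ∀ E₀ : Set E, E₀ ≠ univ → IsClosed E₀ → E.domRestrict π '' E₀ ≠ univ := by
    intro E₀ h1 h2 h3
    refine hEi' E₀ h1 h2 ?_
    rw [eq_univ_iff_forall] at h3 ⊢
    rintro ⟨b⟩
    obtain ⟨p, hp, hpb⟩ := h3 b
    refine ⟨p, hp, ?_⟩
    show ULift.up (E.domRestrict π p) = ULift.up b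
    rw [hpb]
  refine ⟨E, inferInstance, hEc, fun p => π p.1, fun p => toD p.1.1.1, fun n τ => (x n τ : X),
    2 / ε, by positivity, hπ.comp continuous_subtype_val, ?_, ?_, fun p => toD_norm _,
    fun y => ?_, fun n τ => hx n τ, fun p n τ => p.1.2 n τ⟩
  · intro b
    have : b ∈ π '' E := by rw [hEs]; exact mem_univ _
    obtain ⟨p, hp, hpb⟩ := this
    exact ⟨⟨p, hp⟩, hpb⟩
  · intro F hF hFu
    exact hEi F hFu hF
  · exact (toD_eval_continuous y).comp
      (continuous_fst.comp (continuous_subtype_val.comp continuous_subtype_val))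

end Pool.Agent.Work.MP_f490a9_an
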